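import Pool.Agent.H20.KH.Stmts
import Pool.Agent.H33.KG.BAS

/-!
# Project KH, module MQ2: quadratic covariances and marginals
-/

set_option autoImplicit false
set_option linter.unusedSectionVars false

open MeasureTheory Set Filter Topology
open scoped ContDiff

namespace Pool.Agent.H20.KH

open Pool.Agent.H84 Pool.Agent.H84.Sym Pool.Agent.H84.Sym.P2x
open Pool.Agent.H19.KL
open Pool.Agent.H73.KG

theorem mq2_thm (E : Type) [NormedAddCommGroup E] [InnerProductSpace ℝ E]
    [FiniteDimensional ℝ E] [MeasurableSpace E] [BorelSpace E] (hM : MGLStmt E) (hS : SP2Stmt E) :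
    MQ2Stmt E := by
  intro U t hU S ψ hψ
  have hsp := fun F hF => hS U t hU S ψ F hψ hF
  obtain ⟨hB, hfb, hfib, hint, h3, -⟩ := hM U t hU S
  obtain ⟨⟨⟨C, hP⟩, hpr⟩, -⟩ := hU
  obtain ⟨⟨⟨Cν, hPν⟩, hprν⟩, -⟩ := hB
  have hG : GC (cav S U ψ) := (hsp ψ hψ).1
  refine ⟨fun u v => ?_, BAS_nonneg hPν hprν hG, ?_⟩
  · set F : E → ℝ := fun x => (li (u : E) x - mn U u) * (li (v : E) x - mn U v) with hF
    have hFG : GC F := ((BAS_li _).sub (GC.const _)).mul ((BAS_li _).sub (GC.const _))
    obtain ⟨-, -, h2⟩ := hsp F hFG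
    have hli : ∀ (w : Sᗮ) (x : S) (z : Sᗮ), li (w : E) ((x : E) + (z : E)) = li w z := by
      intro w x z
      unfold li
      rw [inner_add_right, Submodule.inner_left_of_mem_orthogonal x.2 w.2, zero_add]
      rfl
    have hFz : ∀ (x : S) (z : Sᗮ), F ((x : E) + (z : E)) =
        (li u z - mn (mg S U) u) * (li v z - mn (mg S U) v) := by
      intro x z
      simp only [hF]
      rw [hli, hli, (h3 u u u).2.2, (h3 v v v).2.2]
    have hcF : cav S U F = fun z => (li u z - mn (mg S U) u) * (li v z - mn (mg S U) v) := by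
      funext z
      obtain ⟨_, hz⟩ := hfb z
      rw [← hfib]
      simp only [hFz]
      simp
    have h0 : ∀ z : Sᗮ, cv (fb S U z) (fun x => ψ ((x : E) + (z : E)))
        (fun x => F ((x : E) + (z : E))) = 0 := by
      intro z
      obtain ⟨_, hz⟩ := hfb z
      simp only [hFz]
      unfold Pool.Agent.H73.KG.cv
      rw [integral_mul_const]
      simp
    have e1 : q2 U ψ (u : E) (v : E) = cv U ψ F := rfl
    rw [e1, h2, hcF]
    simp only [h0, integral_zero, zero_add]
    rfl
  · obtain ⟨-, -, h2⟩ := hsp ψ hψ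
    rw [h2]
    have : 0 ≤ ∫ z : Sᗮ, cv (fb S U z) (fun x => ψ ((x : E) + (z : E)))
        (fun x => ψ ((x : E) + (z : E))) ∂(mu (mg S U)) := by
      apply integral_nonneg
      intro z
      obtain ⟨⟨Cz, hPz⟩, hprz⟩ := hfb z
      exact BAS_nonneg hPz hprz (P4bx.gc_sec S hψ (z : E))
    linarith

end Pool.Agent.H20.KH
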