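import Pool.Agent.H20.KH.Stmts
import Pool.Agent.H33.KG.BAS
import Pool.Agent.H3.KG.MGA

/-!
# Project KH, module QS2: splitting of a quadratic form along fibres
-/

set_option autoImplicit false
set_option linter.unusedSectionVars false

open MeasureTheory Set Filter Topology
open scoped ContDiff

namespace Pool.Agent.H20.KH

open Pool.Agent.H84 Pool.Agent.H84.Sym Pool.Agent.H84.Sym.P2x
open Pool.Agent.H19.KL
open Pool.Agent.H73.KG

theorem QS2_cs {X : Type} [MeasurableSpace X] (μ : Measure X) (a b : X → ℝ)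
    (ha : Integrable (fun x => a x ^ 2) μ) (hb : Integrable (fun x => b x ^ 2) μ)
    (hab : Integrable (fun x => a x * b x) μ) :
    (∫ x, a x * b x ∂μ) ^ 2 ≤ (∫ x, a x ^ 2 ∂μ) * ∫ x, b x ^ 2 ∂μ := by
  have key : ∀ s : ℝ, 0 ≤ (∫ x, b x ^ 2 ∂μ) * (s * s) + 2 * (∫ x, a x * b x ∂μ) * s +
      ∫ x, a x ^ 2 ∂μ := by
    intro s
    have h1 : 0 ≤ ∫ x, (a x + s * b x) ^ 2 ∂μ := integral_nonneg fun x => sq_nonneg _
    have e : (fun x => (a x + s * b x) ^ 2) = fun x =>
        (a x ^ 2 + 2 * s * (a x * b x)) + s ^ 2 * b x ^ 2 := by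
      funext x; ring
    have i1 : Integrable (fun x => 2 * s * (a x * b x)) μ := hab.const_mul _
    have i2 : Integrable (fun x => a x ^ 2 + 2 * s * (a x * b x)) μ := ha.add i1
    rw [e, integral_add i2 (hb.const_mul _),
      integral_add ha i1, integral_const_mul, integral_const_mul] at h1
    nlinarith
  have := discrim_le_zero key
  unfold discrim at this
  nlinarith

theorem qs2_thm (E : Type) [NormedAddCommGroup E] [InnerProductSpace ℝ E]
    [FiniteDimensional ℝ E] [MeasurableSpace E] [BorelSpace E]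
    (hB : ∀ (E : Type) [NormedAddCommGroup E] [InnerProductSpace ℝ E]
      [FiniteDimensional ℝ E] [MeasurableSpace E] [BorelSpace E], BASStmt E)
    (hM : MGLStmt E) (hS : SP2Stmt E) : QS2Stmt E := by
  intro U t hU ht1 S κ _ c m β hm hβ ψ hψ
  classical
  have hsp := fun (ψ F : E → ℝ) (hψ : GC ψ) (hF : GC F) => hS U t hU S ψ F hψ hF
  obtain ⟨m1, m2, m3, m4, m5, -⟩ := hM U t hU S
  have hpU : PP U t := hU.1
  have ht := MGA_pos m1.1
  have hprν : IsProbabilityMeasure (mu (mg S U)) := m1.1.2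
  obtain ⟨⟨C, hP⟩, hpr⟩ := hU.1
  obtain ⟨⟨Cν, hPν⟩, -⟩ := m1.1
  obtain ⟨-, -, -, b4, -⟩ := hB Sᗮ
  set k : ℝ := (Module.finrank ℝ Sᗮ : ℝ) with hk
  have hk0 : 0 ≤ k := Nat.cast_nonneg _
  have hψ1 : GC (cav S U ψ) := (hsp ψ ψ hψ hψ).1
  have hgc := MGA_A_gc S c hB hM hU
  -- the quadratic form
  set f : κ → E → ℝ := fun i x => (li ((c i : S) : E) x - mn U (c i)) *
    (li ((c i : S) : E) x - mn U (c i)) with hf
  have hfG : ∀ i, GC (f i) := fun i => ((BAS_li _).sub (GC.const _)).mul ((BAS_li _).sub (GC.const _))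
  set F : E → ℝ := fun x => ∑ i, m i * f i x with hF
  have hFG : GC F := MGA_gc_sum m hfG
  have e1 : ∑ i, m i * q2 U ψ (c i) (c i) = Pool.Agent.H73.KG.cv U ψ F := by
    rw [BAS_symm, hF, MGA_cv_sum hpU m hfG hψ]
    refine Finset.sum_congr rfl fun i _ => ?_
    rw [BAS_symm]
    rfl
  obtain ⟨-, iF, sF⟩ := hsp ψ F hψ hFG
  obtain ⟨-, iψ, sψ⟩ := hsp ψ ψ hψ hψ
  have hcF : GC (cav S U F) := (hsp F F hFG hFG).1
  -- fibres
  have hmn : ∀ i (z : Sᗮ), mn (fb S U z) (c i) = cav S U (li ((c i : S) : E)) z := by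
    intro i z
    rw [← m3 z]
    unfold Pool.Agent.H73.KG.mn
    simp only [MGA_li_fb]
  have hsh : ∀ z : Sᗮ, GC (fun x : S => ψ ((x : E) + (z : E))) := fun z => MGA_gc_sh S hψ z
  set Q : Sᗮ → ℝ := fun z => ∑ i, m i * (MGA_A S c U i z) ^ 2 with hQ
  set R : Sᗮ → ℝ := fun z => ∑ i, (2 * m i * MGA_A S c U i z) *
    Pool.Agent.H73.KG.cv (fb S U z) (li (c i)) (fun x : S => ψ ((x : E) + (z : E))) with hR
  set h : Sᗮ → ℝ := fun z => ∑ i, m i * Pool.Agent.H73.KG.cv (fb S U z) (li (c i)) (li (c i)) with hh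
  have hFz : ∀ (z : Sᗮ) (x : S), F ((x : E) + (z : E)) = qc c m (fb S U z) x +
      ((∑ i, (2 * m i * MGA_A S c U i z) * (li (c i) x - mn (fb S U z) (c i))) + Q z) := by
    intro z x
    simp only [hF, hf, MGA_li_fb, qc, hQ]
    rw [← Finset.sum_add_distrib, ← Finset.sum_add_distrib]
    refine Finset.sum_congr rfl fun i _ => ?_
    unfold MGA_A
    rw [hmn]
    ring
  have hqc : ∀ z, GC (qc c m (fb S U z)) := fun z =>
    MGA_gc_sum m fun i => ((BAS_li _).sub (GC.const _)).sq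
  have hcvF : ∀ z : Sᗮ, Pool.Agent.H73.KG.cv (fb S U z) (fun x => ψ ((x : E) + (z : E)))
      (fun x => F ((x : E) + (z : E))) =
      Pool.Agent.H73.KG.cv (fb S U z) (fun x => ψ ((x : E) + (z : E))) (qc c m (fb S U z)) + R z := by
    intro z
    obtain ⟨⟨Cz, hPz⟩, hprz⟩ := m2 z
    have g1 : GC (fun x : S => ∑ i, (2 * m i * MGA_A S c U i z) *
        (li (c i) x - mn (fb S U z) (c i))) := MGA_gc_sum _ fun i => (BAS_li _).sub (GC.const _)
    have hcs : ∀ (g : S → ℝ) (a : ℝ), Pool.Agent.H73.KG.cv (fb S U z) (fun _ => a) g = 0 := by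
      intro g a
      unfold Pool.Agent.H73.KG.cv
      rw [integral_const_mul]
      simp
    have e2 : (fun x : S => F ((x : E) + (z : E))) = fun x => qc c m (fb S U z) x +
      ((∑ i, (2 * m i * MGA_A S c U i z) * (li (c i) x - mn (fb S U z) (c i))) + Q z) :=
      funext fun x => hFz z x
    rw [BAS_symm, e2, BAS_add hPz (hqc z) (g1.add (GC.const _)) (hsh z),
      BAS_add hPz g1 (GC.const _) (hsh z), hcs, add_zero, BAS_symm]
    congr 1
    rw [MGA_cv_sum (m2 z) _ (fun i => (BAS_li _).sub (GC.const _)) (hsh z)]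
    simp only [hR]
    refine Finset.sum_congr rfl fun i _ => ?_
    congr 1
    have e3 : (fun x : S => li (c i) x - mn (fb S U z) (c i)) =
        fun x => li (c i) x + (-mn (fb S U z) (c i)) := by
      funext x; ring
    rw [e3, BAS_add hPz (BAS_li _) (GC.const _) (hsh z), hcs, add_zero]
  have hcavF : ∀ z, cav S U F z = h z + Q z := by
    intro z
    obtain ⟨⟨Cz, hPz⟩, hprz⟩ := m2 z
    rw [← m3 z]
    simp only [hFz]
    have g1 : GC (fun x : S => ∑ i, (2 * m i * MGA_A S c U i z) *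
        (li (c i) x - mn (fb S U z) (c i))) := MGA_gc_sum _ fun i => (BAS_li _).sub (GC.const _)
    have i1 : Integrable (qc c m (fb S U z)) (mu (fb S U z)) := (hqc z).integrable hPz
    have i2 : Integrable (fun x : S => ∑ i, (2 * m i * MGA_A S c U i z) *
        (li (c i) x - mn (fb S U z) (c i))) (mu (fb S U z)) := g1.integrable hPz
    have i22 : Integrable (fun x : S => (∑ i, (2 * m i * MGA_A S c U i z) *
        (li (c i) x - Pool.Agent.H73.KG.mn (fb S U z) (c i))) + Q z) (mu (fb S U z)) :=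
      i2.add (integrable_const _)
    rw [integral_add i1 i22, integral_add i2 (integrable_const _)]
    have i3 : ∀ i, Integrable (fun x : S => li (c i) x - mn (fb S U z) (c i)) (mu (fb S U z)) :=
      fun i => ((BAS_li _).sub (GC.const _)).integrable hPz
    have e4 : ∫ x : S, (∑ i, (2 * m i * MGA_A S c U i z) *
        (li (c i) x - mn (fb S U z) (c i))) ∂(mu (fb S U z)) = 0 := by
      rw [integral_finsetSum _ fun i _ => (i3 i).const_mul _]
      refine Finset.sum_eq_zero fun i _ => ?_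
      rw [integral_const_mul, integral_sub ((BAS_li _).integrable hPz) (integrable_const _)]
      simp [Pool.Agent.H73.KG.mn]
    have e5 : ∫ x : S, qc c m (fb S U z) x ∂(mu (fb S U z)) = h z := by
      unfold qc
      have i4 : ∀ i, Integrable (fun x : S => (li (c i) x - mn (fb S U z) (c i)) ^ 2)
          (mu (fb S U z)) := fun i => (((BAS_li _).sub (GC.const _)).sq).integrable hPz
      rw [integral_finsetSum _ fun i _ => (i4 i).const_mul _]
      simp only [hh]
      refine Finset.sum_congr rfl fun i _ => ?_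
      rw [integral_const_mul, BAS_cen hPz hprz (BAS_li _) (BAS_li _)]
      congr 1
      refine integral_congr_ae (Eventually.of_forall fun x => ?_)
      simp only [Pool.Agent.H73.KG.mn]
      ring
    rw [e4, e5]
    simp
  -- variance of `Q`
  have hQgc : GC Q := MGA_gc_sum m fun i => (hgc i).sq
  have hhG : GC h := by
    have : h = fun z => cav S U F z - Q z := by
      funext z
      rw [hcavF z]; ring
    rw [this]
    exact hcF.sub hQgc
  have hvQ : Pool.Agent.H73.KG.cv (mg S U) Q Q ≤ 4 * β ^ 2 * k / t ^ 4 := by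
    have hcd := MGA_A_cd S c hM hU
    have hQcd : ContDiff ℝ 1 Q := ContDiff.sum fun i _ => contDiff_const.mul ((hcd i).pow 2)
    have hQD : ∀ z ν, D ν Q z = ∑ i, (2 * m i * MGA_A S c U i z) * D ν (MGA_A S c U i) z := by
      intro z ν
      have h1 : HasFDerivAt Q (∑ i, m i • ((2 * MGA_A S c U i z) •
          fderiv ℝ (MGA_A S c U i) z)) z := by
        refine HasFDerivAt.fun_sum fun i _ => ?_
        have h2 : HasFDerivAt (MGA_A S c U i) (fderiv ℝ (MGA_A S c U i) z) z :=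
          ((hcd i).differentiable (by norm_num) z).hasFDerivAt
        have h3 := (h2.mul h2).const_mul (m i)
        have e1 : (fun z => m i * MGA_A S c U i z ^ 2) =
            fun z => m i * (MGA_A S c U i * MGA_A S c U i) z := by
          funext z
          simp only [Pi.mul_apply]
          ring
        rw [e1]
        have e2 : (2 * MGA_A S c U i z) • fderiv ℝ (MGA_A S c U i) z =
            MGA_A S c U i z • fderiv ℝ (MGA_A S c U i) z +
              MGA_A S c U i z • fderiv ℝ (MGA_A S c U i) z := by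
          rw [two_mul, add_smul]
        rw [e2]
        exact h3
      unfold D
      rw [h1.fderiv]
      simp only [sum_apply, smul_apply, smul_eq_mul]
      exact Finset.sum_congr rfl fun i _ => by ring
    have hQD2 : ∀ z ν, (D ν Q z) ^ 2 ≤ 4 * β ^ 2 / t * (∑ i, (MGA_A S c U i z) ^ 2) * ‖ν‖ ^ 2 := by
      intro z ν
      rw [hQD z ν]
      refine (Finset.sum_mul_sq_le_sq_mul_sq _ _ _).trans ?_
      have h1 : ∑ i, (2 * m i * MGA_A S c U i z) ^ 2 ≤ 4 * β ^ 2 * ∑ i, (MGA_A S c U i z) ^ 2 := by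
        rw [Finset.mul_sum]
        refine Finset.sum_le_sum fun i _ => ?_
        have h2 : (m i) ^ 2 ≤ β ^ 2 := sq_le_sq' (by linarith [(abs_le.1 (hm i)).1])
          (abs_le.1 (hm i)).2
        calc (2 * m i * MGA_A S c U i z) ^ 2 = 4 * (m i) ^ 2 * (MGA_A S c U i z) ^ 2 := by ring
          _ ≤ 4 * β ^ 2 * (MGA_A S c U i z) ^ 2 :=
            mul_le_mul_of_nonneg_right (by linarith) (sq_nonneg _)
      have h2 := MGA_A_sum S c hB hM hU z ν
      have h3 : 0 ≤ ∑ i, (MGA_A S c U i z) ^ 2 := Finset.sum_nonneg fun i _ => sq_nonneg _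
      refine (mul_le_mul h1 h2 (Finset.sum_nonneg fun i _ => sq_nonneg _)
        (by positivity)).trans (le_of_eq ?_)
      field_simp
    have hQn : ∀ z, ‖fderiv ℝ Q z‖ ^ 2 ≤ 4 * β ^ 2 / t * (∑ i, (MGA_A S c U i z) ^ 2) := by
      intro z
      have h3 : 0 ≤ ∑ i, (MGA_A S c U i z) ^ 2 := Finset.sum_nonneg fun i _ => sq_nonneg _
      set M := 4 * β ^ 2 / t * (∑ i, (MGA_A S c U i z) ^ 2) with hMd
      have hM0 : 0 ≤ M := by positivity
      have h4 : ‖fderiv ℝ Q z‖ ≤ Real.sqrt M := by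
        refine ContinuousLinearMap.opNorm_le_bound _ (Real.sqrt_nonneg _) fun ν => ?_
        rw [Real.norm_eq_abs]
        refine abs_le_of_sq_le_sq ?_ (by positivity)
        have h2 : (Real.sqrt M * ‖ν‖) ^ 2 = M * ‖ν‖ ^ 2 := by
          rw [mul_pow, Real.sq_sqrt hM0]
        rw [h2]
        exact hQD2 z ν
      have := pow_le_pow_left₀ (ContinuousLinearMap.opNorm_nonneg _) h4 2
      rwa [Real.sq_sqrt hM0] at this
    have hg2 : GC (fun z => 1 + 4 * β ^ 2 / t * (∑ i, (MGA_A S c U i z) ^ 2)) :=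
      (GC.const 1).add ((GC.const _).mul (GC.sum fun i => (hgc i).sq))
    have hg3 : GC (fun z => 4 * β ^ 2 / t * (∑ i, (MGA_A S c U i z) ^ 2)) :=
      (GC.const _).mul (GC.sum fun i => (hgc i).sq)
    have hQgr : Gr (fun z => ‖fderiv ℝ Q z‖) := by
      refine Gr.of_le hg2.2 fun z => ?_
      have h3 : 0 ≤ ∑ i, (MGA_A S c U i z) ^ 2 := Finset.sum_nonneg fun i _ => sq_nonneg _
      have h5 : ‖fderiv ℝ Q z‖ ≤ 1 + ‖fderiv ℝ Q z‖ ^ 2 := by
        nlinarith [sq_nonneg (‖fderiv ℝ Q z‖ - 1)]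
      refine (abs_of_nonneg (ContinuousLinearMap.opNorm_nonneg _)).le.trans ?_
      refine h5.trans (le_trans ?_ (le_abs_self _))
      have := hQn z
      linarith
    refine (MGA_poin (hB _) m1.1 hQcd hQgc.2 hQgr).trans ?_
    have i1 : Integrable (fun z => 4 * β ^ 2 / t * (∑ i, (MGA_A S c U i z) ^ 2))
        (mu (mg S U)) := MGA_int m1.1 hg3
    have i2 : Integrable (fun z => ‖fderiv ℝ Q z‖ ^ 2) (mu (mg S U)) := by
      refine i1.mono' ((hQcd.continuous_fderiv (by norm_num)).norm.pow 2).aestronglyMeasurable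
        (Eventually.of_forall fun z => ?_)
      rw [Real.norm_eq_abs, abs_of_nonneg (sq_nonneg _)]
      exact hQn z
    have h1 : ∫ z, ‖fderiv ℝ Q z‖ ^ 2 ∂(mu (mg S U)) ≤ 4 * β ^ 2 / t * (k / t ^ 2) := by
      refine (integral_mono i2 i1 hQn).trans ?_
      rw [integral_const_mul, integral_finsetSum _ fun i _ => MGA_int m1.1 (hgc i).sq]
      exact mul_le_mul_of_nonneg_left (MGA_A_var S c hB hM hU) (by positivity)
    calc 1 / t * ∫ z, ‖fderiv ℝ Q z‖ ^ 2 ∂(mu (mg S U)) ≤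
        1 / t * (4 * β ^ 2 / t * (k / t ^ 2)) := mul_le_mul_of_nonneg_left h1 (by positivity)
      _ = 4 * β ^ 2 * k / t ^ 4 := by field_simp
  -- the remainder `R`
  set A2 : Sᗮ → ℝ := fun z => ∑ i, (MGA_A S c U i z) ^ 2 with hA2
  set V : Sᗮ → ℝ := fun z => Pool.Agent.H73.KG.cv (fb S U z) (fun x => ψ ((x : E) + (z : E)))
    (fun x => ψ ((x : E) + (z : E))) with hV
  have hA20 : ∀ z, 0 ≤ A2 z := fun z => Finset.sum_nonneg fun i _ => sq_nonneg _
  have hV0 : ∀ z, 0 ≤ V z := by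
    intro z
    obtain ⟨⟨Cz, hPz⟩, hprz⟩ := m2 z
    exact BAS_nonneg hPz hprz (hsh z)
  have hA2G : GC A2 := GC.sum fun i => (hgc i).sq
  have hR2 : ∀ z, (R z) ^ 2 ≤ (4 * β ^ 2 / t) * (A2 z * V z) := by
    intro z
    obtain ⟨⟨Cz, hPz⟩, hprz⟩ := m2 z
    have h1 : R z = Pool.Agent.H73.KG.cv (fb S U z) (fun x => ∑ i, (2 * m i * MGA_A S c U i z) * li (c i) x)
        (fun x : S => ψ ((x : E) + (z : E))) := by
      rw [MGA_cv_sum (m2 z) _ (fun i => BAS_li _) (hsh z)]
    have hgl : GC (fun x : S => ∑ i, (2 * m i * MGA_A S c U i z) * li (c i) x) :=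
      MGA_gc_sum _ fun i => BAS_li _
    have h2 := BAS_cs hPz hprz hgl (hsh z)
    rw [← h1] at h2
    have h3 := MGA_var_lin c (hB S) (m2 z) (fun i => 2 * m i * MGA_A S c U i z)
    have h4 : ∑ i, (2 * m i * MGA_A S c U i z) ^ 2 ≤ 4 * β ^ 2 * A2 z := by
      simp only [hA2]
      rw [Finset.mul_sum]
      refine Finset.sum_le_sum fun i _ => ?_
      have h2 : (m i) ^ 2 ≤ β ^ 2 := sq_le_sq' (by linarith [(abs_le.1 (hm i)).1])
        (abs_le.1 (hm i)).2
      calc (2 * m i * MGA_A S c U i z) ^ 2 = 4 * (m i) ^ 2 * (MGA_A S c U i z) ^ 2 := by ring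
        _ ≤ 4 * β ^ 2 * (MGA_A S c U i z) ^ 2 :=
          mul_le_mul_of_nonneg_right (by linarith) (sq_nonneg _)
    have h5 : Pool.Agent.H73.KG.cv (fb S U z) (fun x => ∑ i, (2 * m i * MGA_A S c U i z) * li (c i) x)
        (fun x => ∑ i, (2 * m i * MGA_A S c U i z) * li (c i) x) ≤ 4 * β ^ 2 / t * A2 z := by
      refine h3.trans ?_
      calc 1 / t * ∑ i, (2 * m i * MGA_A S c U i z) ^ 2 ≤ 1 / t * (4 * β ^ 2 * A2 z) :=
            mul_le_mul_of_nonneg_left h4 (by positivity)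
        _ = 4 * β ^ 2 / t * A2 z := by ring
    refine h2.trans ?_
    calc _ ≤ (4 * β ^ 2 / t * A2 z) * V z := mul_le_mul_of_nonneg_right h5 (hV0 z)
      _ = _ := by ring
  have hRb : ∀ z, |R z| ≤ (2 * β / Real.sqrt t) * (Real.sqrt (A2 z) * Real.sqrt (V z)) := by
    intro z
    apply abs_le_of_sq_le_sq _ (by positivity)
    refine (hR2 z).trans (le_of_eq ?_)
    rw [mul_pow, mul_pow, div_pow, Real.sq_sqrt (hA20 z), Real.sq_sqrt (hV0 z), Real.sq_sqrt ht.le]
    ring
  have hcR : Continuous R := by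
    simp only [hR]
    refine continuous_finsetSum _ fun i _ => ?_
    refine (continuous_const.mul (hgc i).1).mul ?_
    have e6 : (fun z : Sᗮ => Pool.Agent.H73.KG.cv (fb S U z) (li (c i))
        (fun x : S => ψ ((x : E) + (z : E)))) = fun z =>
        cav S U (fun y => li ((c i : S) : E) y * ψ y) z - cav S U (li ((c i : S) : E)) z * cav S U ψ z := by
      funext z
      rw [← MGA_cv_fb S hM hU z (li ((c i : S) : E)) ψ]
      simp only [MGA_li_fb]
    rw [e6]
    exact ((m4 _ ((BAS_li _).mul hψ)).2.2).sub (((m4 _ (BAS_li _)).2.2).mul (m4 _ hψ).2.2)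
  have iA2 : Integrable A2 (mu (mg S U)) := MGA_int m1.1 hA2G
  have iV : Integrable V (mu (mg S U)) := iψ
  have iA2' : Integrable (fun z => Real.sqrt (A2 z) ^ 2) (mu (mg S U)) := by
    refine iA2.congr (Eventually.of_forall fun z => ?_)
    simp only [Real.sq_sqrt (hA20 z)]
  have iV' : Integrable (fun z => Real.sqrt (V z) ^ 2) (mu (mg S U)) := by
    refine iV.congr (Eventually.of_forall fun z => ?_)
    simp only [Real.sq_sqrt (hV0 z)]
  have hVc : Continuous V := by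
    have e6 : V = fun z => cav S U (fun y => ψ y * ψ y) z - cav S U ψ z * cav S U ψ z := by
      funext z
      exact MGA_cv_fb S hM hU z ψ ψ
    rw [e6]
    exact ((m4 _ (hψ.mul hψ)).2.2).sub (((m4 _ hψ).2.2).mul (m4 _ hψ).2.2)
  have iAV : Integrable (fun z => Real.sqrt (A2 z) * Real.sqrt (V z)) (mu (mg S U)) := by
    refine (iA2.add iV).mono' ((hA2G.1.sqrt).mul hVc.sqrt).aestronglyMeasurable
      (Eventually.of_forall fun z => ?_)
    rw [Real.norm_of_nonneg (by positivity)]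
    simp only [Pi.add_apply]
    have h1 := Real.sq_sqrt (hA20 z)
    have h2 := Real.sq_sqrt (hV0 z)
    nlinarith [sq_nonneg (Real.sqrt (A2 z) - Real.sqrt (V z)), Real.sqrt_nonneg (A2 z),
      Real.sqrt_nonneg (V z), sq_nonneg (Real.sqrt (A2 z)), sq_nonneg (Real.sqrt (V z))]
  have iR : Integrable R (mu (mg S U)) := by
    refine (iAV.const_mul (2 * β / Real.sqrt t)).mono' hcR.aestronglyMeasurable
      (Eventually.of_forall fun z => ?_)
    rw [Real.norm_eq_abs]
    exact hRb z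
  have iqc : Integrable (fun z : Sᗮ => Pool.Agent.H73.KG.cv (fb S U z) (fun x => ψ ((x : E) + (z : E)))
      (qc c m (fb S U z))) (mu (mg S U)) := by
    refine (iF.sub iR).congr (Eventually.of_forall fun z => ?_)
    simp only [Pi.sub_apply]
    rw [hcvF z]
    ring
  refine ⟨iqc, ?_⟩
  -- the total
  set vψ := Pool.Agent.H73.KG.cv U ψ ψ with hvψ
  have hcm0 : 0 ≤ Pool.Agent.H73.KG.cv (mg S U) (cav S U ψ) (cav S U ψ) := BAS_nonneg hPν hprν hψ1
  have hIV0 : 0 ≤ ∫ z, V z ∂(mu (mg S U)) := integral_nonneg hV0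
  have hsψ : vψ = (∫ z, V z ∂(mu (mg S U))) + Pool.Agent.H73.KG.cv (mg S U) (cav S U ψ) (cav S U ψ) := sψ
  have hv0 : 0 ≤ vψ := by rw [hsψ]; linarith
  have hIV : ∫ z, V z ∂(mu (mg S U)) ≤ vψ := by rw [hsψ]; linarith
  have hcm : Pool.Agent.H73.KG.cv (mg S U) (cav S U ψ) (cav S U ψ) ≤ vψ := by rw [hsψ]; linarith
  have hIA : ∫ z, A2 z ∂(mu (mg S U)) ≤ k / t ^ 2 := by
    simp only [hA2]
    rw [integral_finsetSum _ fun i _ => MGA_int m1.1 (hgc i).sq]
    exact MGA_A_var S c hB hM hU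
  have hIA0 : 0 ≤ ∫ z, A2 z ∂(mu (mg S U)) := integral_nonneg hA20
  have hIR : |∫ z, R z ∂(mu (mg S U))| ≤ 2 * β * Real.sqrt k / t ^ 2 * Real.sqrt vψ := by
    have h1 : |∫ z, R z ∂(mu (mg S U))| ≤ ∫ z, (2 * β / Real.sqrt t) *
        (Real.sqrt (A2 z) * Real.sqrt (V z)) ∂(mu (mg S U)) := by
      refine (abs_integral_le_integral_abs).trans ?_
      exact integral_mono iR.abs (iAV.const_mul _) hRb
    rw [integral_const_mul] at h1
    have h2 := QS2_cs (mu (mg S U)) (fun z => Real.sqrt (A2 z)) (fun z => Real.sqrt (V z)) iA2' iV' iAV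
    have h3 : ∫ z, Real.sqrt (A2 z) ^ 2 ∂(mu (mg S U)) = ∫ z, A2 z ∂(mu (mg S U)) :=
      integral_congr_ae (Eventually.of_forall fun z => Real.sq_sqrt (hA20 z))
    have h4 : ∫ z, Real.sqrt (V z) ^ 2 ∂(mu (mg S U)) = ∫ z, V z ∂(mu (mg S U)) :=
      integral_congr_ae (Eventually.of_forall fun z => Real.sq_sqrt (hV0 z))
    rw [h3, h4] at h2
    have h5 : ∫ z, Real.sqrt (A2 z) * Real.sqrt (V z) ∂(mu (mg S U)) ≤
        Real.sqrt (k / t ^ 2) * Real.sqrt vψ := by
      refine le_trans (le_abs_self _) (abs_le_of_sq_le_sq ?_ (by positivity))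
      rw [mul_pow, Real.sq_sqrt (by positivity), Real.sq_sqrt hv0]
      exact h2.trans (mul_le_mul hIA hIV hIV0 (by positivity))
    have h6 : Real.sqrt (k / t ^ 2) = Real.sqrt k / t := by
      rw [Real.sqrt_div hk0, Real.sqrt_sq ht.le]
    rw [h6] at h5
    have h7 : t ≤ Real.sqrt t := by
      apply Real.le_sqrt_of_sq_le
      nlinarith
    have h8 : 2 * β / Real.sqrt t ≤ 2 * β / t := div_le_div_of_nonneg_left (by positivity) ht h7
    calc |∫ z, R z ∂(mu (mg S U))| ≤ 2 * β / Real.sqrt t *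
          ∫ z, Real.sqrt (A2 z) * Real.sqrt (V z) ∂(mu (mg S U)) := h1
      _ ≤ 2 * β / t * (Real.sqrt k / t * Real.sqrt vψ) := by
          apply mul_le_mul h8 h5 (integral_nonneg fun z => by positivity) (by positivity)
      _ = 2 * β * Real.sqrt k / t ^ 2 * Real.sqrt vψ := by
          field_simp
  have hcQ : |Pool.Agent.H73.KG.cv (mg S U) (cav S U ψ) Q| ≤ 2 * β * Real.sqrt k / t ^ 2 * Real.sqrt vψ := by
    apply abs_le_of_sq_le_sq _ (by positivity)
    have h1 := (b4 _ t m1.1 _ _ hψ1 hQgc).1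
    have hQQ := (b4 _ t m1.1 _ _ hQgc hQgc).2.1
    refine h1.trans ((mul_le_mul hcm hvQ hQQ hv0).trans (le_of_eq ?_))
    rw [mul_pow, div_pow, mul_pow, mul_pow, Real.sq_sqrt hk0, Real.sq_sqrt hv0]
    ring
  have e7 : Pool.Agent.H73.KG.cv (mg S U) (cav S U ψ) (cav S U F) =
      Pool.Agent.H73.KG.cv (mg S U) (cav S U ψ) h + Pool.Agent.H73.KG.cv (mg S U) (cav S U ψ) Q := by
    have : cav S U F = fun z => h z + Q z := funext hcavF
    rw [this, BAS_symm, BAS_add hPν hhG hQgc hψ1, BAS_symm (mg S U) h, BAS_symm (mg S U) Q]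
  have e8 : ∫ z : Sᗮ, Pool.Agent.H73.KG.cv (fb S U z) (fun x => ψ ((x : E) + (z : E)))
      (fun x => F ((x : E) + (z : E))) ∂(mu (mg S U)) =
      (∫ z : Sᗮ, Pool.Agent.H73.KG.cv (fb S U z) (fun x => ψ ((x : E) + (z : E))) (qc c m (fb S U z))
        ∂(mu (mg S U))) + ∫ z, R z ∂(mu (mg S U)) := by
    rw [← integral_add iqc iR]
    exact integral_congr_ae (Eventually.of_forall hcvF)
  rw [e1, sF, e7, e8]
  have e9 : (∫ z : Sᗮ, Pool.Agent.H73.KG.cv (fb S U z) (fun x => ψ ((x : E) + (z : E))) (qc c m (fb S U z))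
        ∂(mu (mg S U))) + (∫ z, R z ∂(mu (mg S U))) + (Pool.Agent.H73.KG.cv (mg S U) (cav S U ψ) h +
        Pool.Agent.H73.KG.cv (mg S U) (cav S U ψ) Q) -
      ((∫ z : Sᗮ, Pool.Agent.H73.KG.cv (fb S U z) (fun x => ψ ((x : E) + (z : E))) (qc c m (fb S U z))
        ∂(mu (mg S U))) + Pool.Agent.H73.KG.cv (mg S U) (cav S U ψ) h) =
      (∫ z, R z ∂(mu (mg S U))) + Pool.Agent.H73.KG.cv (mg S U) (cav S U ψ) Q := by ring
  rw [e9]
  refine (abs_add_le _ _).trans ((add_le_add hIR hcQ).trans (le_of_eq ?_))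
  ring

end Pool.Agent.H20.KH
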